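import Pool.Agent.AT10.Stmts3
import Pool.Agent.Helper66_PP.Pos1
import Pool.Agent.Helper94_PP.Nch

/-!
# Squad AT10, row PRU: uniqueness of compatible functions
-/

set_option autoImplicit false

open scoped BigOperators

noncomputable section

namespace Pool.Agent.PP.T10.H92

open Pool.Agent.Helper51_AWC Pool.Agent.Helper79_WRA Pool.Agent.PP Pool.Agent.PP.KF
open Pool.Agent.PP.K9 Pool.Agent.PP.K9.H97 Pool.Agent.PP.H75 Pool.Agent.PP.T3 Pool.Agent.PP.T2
open Pool.Agent.PP.T5 Pool.Agent.PP.TB

/-- PRU -/
theorem pru : PruStmt := by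
  classical
  intro ℓ hℓ F _ hF G _ _ P hP β β' hβ hβ' hPP
  have key : ∀ n : ℕ, ∀ Q : Subgroup G, Q ≤ P → Nat.card P - Nat.card Q ≤ n → β Q = β' Q := by
    intro n
    induction n with
    | zero =>
      intro Q hQ hn
      have h1 : Q = P := Subgroup.eq_of_le_of_card_ge hQ (by omega)
      rw [h1]
      exact hPP
    | succ n ih =>
      intro Q hQ hn
      by_cases hQP : Q = P
      · rw [hQP]
        exact hPP
      have hlt : Q < P := lt_of_le_of_ne hQ hQP
      obtain ⟨x, hxP, hxQ, hxN⟩ := H94.grow hP hlt
      set S : Subgroup G := P ⊓ Subgroup.normalizer (Q : Set G) with hSdef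
      have hSP : S ≤ P := inf_le_left
      have hSN : S ≤ Subgroup.normalizer (Q : Set G) := inf_le_right
      have hQS : Q ≤ S := le_inf hQ Subgroup.le_normalizer
      have hxS : x ∈ S := ⟨hxP, hxN⟩
      have hcard : Nat.card Q < Nat.card S := by
        have h1 : Nat.card Q ≤ Nat.card S := Subgroup.card_le_of_le hQS
        rcases h1.lt_or_eq with h2 | h2
        · exact h2
        · exfalso
          have h3 : Q = S := Subgroup.eq_of_le_of_card_ge hQS h2.ge
          rw [h3] at hxQ
          exact hxQ hxS
      have hcard2 : Nat.card S ≤ Nat.card P := Subgroup.card_le_of_le hSP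
      have hS : β S = β' S := ih S hSP (by omega)
      have hSg : IsPGroup ℓ S := hP.to_le hSP
      have hi : H66.Inv S (β Q) := fun s hs t =>
        (cj_eq_iff s (β Q)).1 (hβ.st Q S hQS hSP hSN s hs) t
      have hi' : H66.Inv S (β' Q) := fun s hs t =>
        (cj_eq_iff s (β' Q)).1 (hβ'.st Q S hQS hSP hSN s hs) t
      have hb := hβ.br Q S hQS hSP hSN
      have hb' := hβ'.br Q S hQS hSP hSN
      rcases (hβ.bx Q hQ).dich (hβ'.bx Q hQ) with h | h
      · exact h
      · exfalso
        have h1 : mulF (br S (mulF (β Q) (β' Q))) (β S) = β S := by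
          rw [H66.br_mulF hF hSg hi hi', Pool.Agent.PP.mulF_assoc]
          have h2 : mulF (br S (β' Q)) (β S) = β S := by
            rw [hS]
            exact hb'
          rw [h2]
          exact hb
        apply (hβ.bx S hSP).ne
        rw [← h1, h]
        have h3 : br S (0 : G → F) = 0 := by
          funext t
          by_cases ht : t ∈ Subgroup.centralizer (S : Set G)
          · rw [H66.br_of_mem ht]
          · rw [H66.br_of_not_mem ht]
            rfl
        rw [h3, H75.mulF_zero_left]
  intro Q hQ
  exact key _ Q hQ le_rfl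

end Pool.Agent.PP.T10.H92
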